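import Pool.Agent.Lib.MP_98022b_h12.Sys

/-!
# Extensions with locally inner conjugation
-/

set_option autoImplicit false

namespace Pool.Agent.FJ.H12

open Monoid SemidirectProduct Pool.Agent.FJ

variable {P : ∀ (G : Type) [Group G], Prop}

section

variable {G M : Type} [Group G] [Group M] (g : G) (K₀ : Subgroup G) (ρ : K₀ →* M) (m : M)

/-- The elements on which conjugation by `g` becomes conjugation by `m`. -/
def innerSub : Subgroup G where
  carrier := {k | ∃ (hk : k ∈ K₀) (hk' : g * k * g⁻¹ ∈ K₀),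
    ρ ⟨g * k * g⁻¹, hk'⟩ = m * ρ ⟨k, hk⟩ * m⁻¹}
  one_mem' := ⟨one_mem _, by simp, by
    have h1 : (⟨g * 1 * g⁻¹, by simp⟩ : K₀) = 1 := Subtype.ext (by simp)
    have h2 : (⟨1, one_mem _⟩ : K₀) = 1 := rfl
    rw [h1, h2, map_one]
    simp⟩
  mul_mem' := by
    rintro a b ⟨ha, ha', ea⟩ ⟨hb, hb', eb⟩
    have h : g * (a * b) * g⁻¹ = (g * a * g⁻¹) * (g * b * g⁻¹) := by group
    refine ⟨mul_mem ha hb, by rw [h]; exact mul_mem ha' hb', ?_⟩
    have h1 : (⟨g * (a * b) * g⁻¹, by rw [h]; exact mul_mem ha' hb'⟩ : K₀) =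
        ⟨g * a * g⁻¹, ha'⟩ * ⟨g * b * g⁻¹, hb'⟩ := Subtype.ext h
    have h2 : (⟨a * b, mul_mem ha hb⟩ : K₀) = ⟨a, ha⟩ * ⟨b, hb⟩ := rfl
    rw [h1, h2, map_mul, map_mul, ea, eb]
    group
  inv_mem' := by
    rintro a ⟨ha, ha', ea⟩
    have h : g * a⁻¹ * g⁻¹ = (g * a * g⁻¹)⁻¹ := by group
    refine ⟨inv_mem ha, by rw [h]; exact inv_mem ha', ?_⟩
    have h1 : (⟨g * a⁻¹ * g⁻¹, by rw [h]; exact inv_mem ha'⟩ : K₀) =
        (⟨g * a * g⁻¹, ha'⟩ : K₀)⁻¹ := Subtype.ext h
    have h2 : (⟨a⁻¹, inv_mem ha⟩ : K₀) = (⟨a, ha⟩ : K₀)⁻¹ := rfl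
    rw [h1, h2, map_inv, map_inv, ea]
    group

theorem mem_innerSub {k : G} : k ∈ innerSub g K₀ ρ m ↔ ∃ (hk : k ∈ K₀) (hk' : g * k * g⁻¹ ∈ K₀),
    ρ ⟨g * k * g⁻¹, hk'⟩ = m * ρ ⟨k, hk⟩ * m⁻¹ := Iff.rfl

end

/-- Extensions `1 → K → G → Q` with `K`, `Q` in the class, such that conjugation with each element
of `G` of infinite order in `Q` is locally inner over the class. -/
theorem ext_mem (hP : IsFJClass P) {G Q : Type} [Group G] [Group Q] (f : G →* Q)
    (hQ : P Q) (hK : P f.ker)
    (h : ∀ g : G, ¬ IsOfFinOrder (f g) → ∀ S : Finset G, (∀ s ∈ S, f s = 1) →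
      ∃ (K₀ : Subgroup G) (M : Type) (_ : Group M) (ρ : K₀ →* M) (m : M),
        P M ∧ Function.Injective ρ ∧ ∀ s ∈ S, ∃ (hs : s ∈ K₀) (hs' : g * s * g⁻¹ ∈ K₀),
          ρ ⟨g * s * g⁻¹, hs'⟩ = m * ρ ⟨s, hs⟩ * m⁻¹) : P G := by
  classical
  refine hP.extension f hQ fun q => ?_
  let L : Subgroup G := (Subgroup.zpowers q).comap f
  let fL : L →* Subgroup.zpowers q :=
    (f.comp L.subtype).codRestrict (Subgroup.zpowers q) fun x => x.2
  obtain ⟨⟨g₀, g, hg₀⟩, hgen⟩ := (inferInstance : IsCyclic fL.range).exists_generator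
  have hgen' : ∀ x : L, ∃ n : ℤ, (f (g : G)) ^ n = f (x : G) := by
    intro x
    obtain ⟨n, hn⟩ := hgen ⟨fL x, x, rfl⟩
    refine ⟨n, ?_⟩
    have h1 := congrArg (fun z : fL.range => ((z : Subgroup.zpowers q) : Q)) hn
    simp only [Subgroup.coe_zpow] at h1
    rw [← hg₀] at h1
    exact h1
  by_cases hfin : IsOfFinOrder (f (g : G))
  · have hfinite : Finite fL.range := by
      have : Finite (Subgroup.zpowers (f (g : G))) := finite_zpowers.2 hfin
      refine Finite.of_injective (fun z : fL.range =>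
        (⟨((z : Subgroup.zpowers q) : Q), ?_⟩ : Subgroup.zpowers (f (g : G)))) ?_
      · obtain ⟨_, x, rfl⟩ := z
        exact hgen' x
      · intro x y hxy
        have h1 : ((x : Subgroup.zpowers q) : Q) = ((y : Subgroup.zpowers q) : Q) :=
          congrArg (fun z : Subgroup.zpowers (f (g : G)) => (z : Q)) hxy
        exact Subtype.ext (Subtype.ext h1)
    refine hP.of_finite_range fL.rangeRestrict ?_
    refine hP.of_injective (H := f.ker)
      ((L.subtype.comp fL.rangeRestrict.ker.subtype).codRestrict f.ker fun x => ?_) ?_ hK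
    · have h1 : fL.rangeRestrict (x : L) = 1 := x.2
      have h2 := congrArg (fun z : fL.range => ((z : Subgroup.zpowers q) : Q)) h1
      exact h2
    · intro x y hxy
      have h1 : ((x : L) : G) = ((y : L) : G) := congrArg (fun z : f.ker => (z : G)) hxy
      exact Subtype.ext (Subtype.ext h1)
  · let α : MulAut f.ker := MulAut.conjNormal (g : G)
    have hα : ∀ k : f.ker, ((α k : f.ker) : G) = g * k * (g : G)⁻¹ := fun k =>
      MulAut.conjNormal_apply _ _
    have hTor : P (Tor α) := by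
      refine tor_mem α hP fun S => ?_
      obtain ⟨K₀, M, _, ρ, m, hM, hρ, hS⟩ := h g hfin (S.image (fun k : f.ker => (k : G))) (by
        intro s hs
        obtain ⟨k, _, rfl⟩ := Finset.mem_image.1 hs
        exact k.2)
      have hdom : (dom S).map f.ker.subtype ≤ innerSub (g : G) K₀ ρ m := by
        rw [dom, MonoidHom.map_closure, Subgroup.closure_le]
        rintro _ ⟨s, hs, rfl⟩
        exact hS _ (Finset.mem_image_of_mem _ hs)
      have hbase : ∀ k : f.ker, k ∈ base α S → (k : G) ∈ K₀ := by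
        have : base α S ≤ K₀.comap f.ker.subtype := by
          refine sup_le ?_ ?_
          · intro k hk
            obtain ⟨h1, -, -⟩ := hdom ⟨k, hk, rfl⟩
            exact h1
          · rintro _ ⟨k, hk, rfl⟩
            obtain ⟨-, h1, -⟩ := hdom ⟨k, hk, rfl⟩
            have h2 : ((α k : f.ker) : G) ∈ K₀ := by rw [hα]; exact h1
            exact h2
        exact fun k hk => this hk
      refine (dat α S).mem P hP M hM
        (ρ.comp ((f.ker.subtype.comp (base α S).subtype).codRestrict K₀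
          fun k => hbase _ k.2)) ?_ m ?_
      · refine hρ.comp ?_
        intro x y hxy
        have h1 : (((x : base α S) : f.ker) : G) = (((y : base α S) : f.ker) : G) :=
          congrArg (fun z : K₀ => (z : G)) hxy
        exact Subtype.ext (Subtype.ext h1)
      · intro k k' hk hk'
        obtain ⟨h1, h2, h3⟩ := hdom ⟨_, hk, rfl⟩
        have e1 : (f.ker.subtype.comp (base α S).subtype).codRestrict K₀
          (fun k => hbase _ k.2) k = ⟨_, h1⟩ := rfl
        have e2 : (f.ker.subtype.comp (base α S).subtype).codRestrict K₀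
            (fun k => hbase _ k.2) k' = ⟨_, h2⟩ := by
          refine Subtype.ext ?_
          change (((k' : base α S) : f.ker) : G) = _
          rw [hk', hα]
          rfl
        rw [MonoidHom.comp_apply, MonoidHom.comp_apply, e1, e2, h3]
    let F : Tor α →* G := SemidirectProduct.lift f.ker.subtype (zpowersHom G (g : G)) (by
      intro n
      refine MonoidHom.ext fun k => ?_
      simp only [MonoidHom.comp_apply, MulEquiv.coe_toMonoidHom, Subgroup.coe_subtype,
        zpowersHom_apply, MulAut.conj_apply]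
      have h1 : α ^ (Multiplicative.toAdd n) =
          MulAut.conjNormal ((g : G) ^ (Multiplicative.toAdd n)) := by
        rw [map_zpow]
      rw [h1, MulAut.conjNormal_apply])
    have hF : ∀ x : Tor α, F x = (x.left : G) * (g : G) ^ (Multiplicative.toAdd x.right) := by
      intro x
      rfl
    have hFinj : Function.Injective F := by
      rw [injective_iff_map_eq_one]
      intro x hx
      rw [hF] at hx
      have h1 : f (g : G) ^ (Multiplicative.toAdd x.right) = 1 := by
        have h2 := congrArg f hx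
        have h3 : f (x.left : G) = 1 := x.left.2
        rw [map_mul, h3, one_mul, map_zpow, map_one] at h2
        exact h2
      have h4 : Multiplicative.toAdd x.right = 0 := by
        by_contra hne
        exact hfin (isOfFinOrder_iff_zpow_eq_one.2 ⟨_, hne, h1⟩)
      rw [h4, zpow_zero, mul_one] at hx
      refine SemidirectProduct.ext (Subtype.ext hx) ?_
      exact Multiplicative.toAdd.injective h4
    refine hP.of_le ?_ (hP.range F hFinj hTor)
    intro x hx
    obtain ⟨n, hn⟩ := hgen' ⟨x, hx⟩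
    have hker : x * ((g : G) ^ n)⁻¹ ∈ f.ker := by
      rw [MonoidHom.mem_ker, map_mul, map_inv, map_zpow, hn]
      exact mul_inv_cancel _
    refine ⟨⟨⟨_, hker⟩, Multiplicative.ofAdd n⟩, ?_⟩
    rw [hF]
    simp

end Pool.Agent.FJ.H12
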