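import Pool.Agent.Lib.MP_98022b_h71.ZCase

/-!
# HNN extensions along partially inner isomorphisms
-/

set_option autoImplicit false

namespace Pool.Agent.FJ.H12

open Monoid SemidirectProduct Pool.Agent.FJ

variable {P : ∀ (G : Type) [Group G], Prop}

section Britton

variable {K M : Type} [Group K] [Group M]
variable {A B : Subgroup K} {φ : A ≃* B} {A' B' : Subgroup M} {φ' : A' ≃* B'}

/-- The homomorphism of HNN extensions induced by a homomorphism of the base groups. -/
def hnnMap (ρ : K →* M) (hA : ∀ a : A, ρ a ∈ A')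
    (hφ : ∀ a : A, ((φ' ⟨ρ a, hA a⟩ : B') : M) = ρ (φ a)) :
    HNNExtension K A B φ →* HNNExtension M A' B' φ' :=
  HNNExtension.lift (HNNExtension.of.comp ρ) HNNExtension.t (by
    intro a
    have h := HNNExtension.t_mul_of (φ := φ') ⟨ρ a, hA a⟩
    rw [hφ a] at h
    exact h)

theorem hnnMap_injective (ρ : K →* M) (hρ : Function.Injective ρ) (hA : ∀ a : A, ρ a ∈ A')
    (hφ : ∀ a : A, ((φ' ⟨ρ a, hA a⟩ : B') : M) = ρ (φ a))
    (hA' : ∀ k : K, ρ k ∈ A' → k ∈ A) (hB' : ∀ k : K, ρ k ∈ B' → k ∈ B) :
    Function.Injective (hnnMap (φ := φ) (φ' := φ') ρ hA hφ) := by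
  rw [injective_iff_map_eq_one]
  intro x hx
  obtain ⟨d⟩ := HNNExtension.NormalWord.TransversalPair.nonempty K A B
  obtain ⟨w, rfl⟩ : ∃ w : HNNExtension.NormalWord d, w.prod φ = x :=
    ⟨_, (HNNExtension.NormalWord.equiv φ d).symm_apply_apply x⟩
  let w' : HNNExtension.NormalWord.ReducedWord M A' B' :=
    { head := ρ w.head
      toList := w.toList.map (fun a => (a.1, ρ a.2))
      chain := by
        rw [List.isChain_map]
        refine w.chain.imp ?_
        rintro ⟨u, g⟩ ⟨v, g'⟩ h hmem
        refine h ?_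
        rcases Int.units_eq_one_or u with rfl | rfl
        · exact hA' _ hmem
        · exact hB' _ hmem }
  have key : ∀ l : List (ℤˣ × K), hnnMap (φ := φ) (φ' := φ') ρ hA hφ
      ((l.map fun a => HNNExtension.t ^ (a.1 : ℤ) * HNNExtension.of a.2).prod) =
      ((l.map fun a => (a.1, ρ a.2)).map fun a =>
        (HNNExtension.t ^ (a.1 : ℤ) * HNNExtension.of a.2 : HNNExtension M A' B' φ')).prod := by
    intro l
    induction l with
    | nil => simp
    | cons a l ih =>
      simp only [List.map_cons, List.prod_cons, map_mul, ih, map_zpow]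
      simp [hnnMap]
  have hprod : w'.prod φ' = hnnMap (φ := φ) (φ' := φ') ρ hA hφ (w.prod φ) := by
    simp only [HNNExtension.NormalWord.ReducedWord.prod, map_mul, key]
    simp [hnnMap, w']
  have hnil : w'.toList = [] := by
    refine HNNExtension.ReducedWord.toList_eq_nil_of_mem_of_range (φ := φ') w' ?_
    rw [hprod, hx]
    exact one_mem _
  have hnil2 : w.toList = [] := by simpa [w'] using hnil
  have hw : w.prod φ = HNNExtension.of w.head := by
    simp [HNNExtension.NormalWord.ReducedWord.prod, hnil2]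
  rw [hw] at hx ⊢
  have h1 : HNNExtension.of (A := A') (B := B') (φ := φ') (ρ w.head) = HNNExtension.of 1 := by
    rw [map_one]
    simpa [hnnMap] using hx
  have h2 := HNNExtension.of_injective _ h1
  have h3 : w.head = 1 := hρ (by rw [h2, map_one])
  rw [h3, map_one]

end Britton

section Inner

variable {M : Type} [Group M] (A : Subgroup M) (m : M)

/-- conjugation by `m` as an isomorphism from `A` to `m A m⁻¹` -/
noncomputable def conjEquiv : A ≃* A.map (MulAut.conj m).toMonoidHom :=
  A.equivMapOfInjective _ (MulAut.conj m).injective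

theorem conjEquiv_apply (a : A) : ((conjEquiv A m a : A.map _) : M) = m * a * m⁻¹ := rfl

/-- The HNN extension of `M` along the restriction of an inner automorphism. -/
abbrev InnerHNN : Type :=
  HNNExtension M A (A.map (MulAut.conj m).toMonoidHom) (conjEquiv A m)

/-- The group `F(M/A) ⋊ M`. -/
abbrev FreePerm : Type := (Twist.triv M (M ⧸ A) (Multiplicative ℤ)).Prod

/-- The basis element of the trivial coset. -/
noncomputable def st : FreePerm A :=
  inl (gen (QuotientGroup.mk 1 : M ⧸ A) (Multiplicative.ofAdd (1 : ℤ)))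

theorem inr_mul_gen (x : M) (ω : M ⧸ A) (n : Multiplicative ℤ) :
    (inr x : FreePerm A) * inl (gen ω n) = inl (gen (x • ω) n) * inr x := by
  have h := (Twist.triv M (M ⧸ A) (Multiplicative ℤ)).conj_gen x ω n
  have h' : (inl (gen (x • ω) n) : FreePerm A) = inr x * inl (gen ω n) * (inr x)⁻¹ := h
  rw [h', inv_mul_cancel_right]

theorem st_comm (a : A) : (inr (a : M) : FreePerm A) * st A = st A * inr (a : M) := by
  rw [st, inr_mul_gen]
  have : (a : M) • (QuotientGroup.mk 1 : M ⧸ A) = QuotientGroup.mk 1 := by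
    rw [MulAction.Quotient.smul_mk]
    refine QuotientGroup.eq.2 ?_
    simp
  rw [this]

/-- The homomorphism from the HNN extension to `F(M/A) ⋊ M`. -/
noncomputable def toFree : InnerHNN A m →* FreePerm A :=
  HNNExtension.lift inr (inr m * st A) (by
    intro a
    rw [conjEquiv_apply, mul_assoc, ← st_comm, ← mul_assoc, ← mul_assoc, ← map_mul, ← map_mul]
    simp)

/-- The left inverse. -/
noncomputable def ofFree : FreePerm A →* InnerHNN A m :=
  (Twist.triv M (M ⧸ A) (Multiplicative ℤ)).lift HNNExtension.of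
    (fun ω => (MulAut.conj (HNNExtension.of ω.out : InnerHNN A m)).toMonoidHom.comp
      (zpowersHom _ (HNNExtension.of m⁻¹ * HNNExtension.t))) (by
    intro h ω n
    have hcomm : ∀ a : M, a ∈ A → (HNNExtension.of a : InnerHNN A m) *
        (zpowersHom _ (HNNExtension.of m⁻¹ * HNNExtension.t)) n =
        (zpowersHom _ (HNNExtension.of m⁻¹ * HNNExtension.t)) n * HNNExtension.of a := by
      intro a ha
      have h1 : Commute (HNNExtension.of a : InnerHNN A m)
          (HNNExtension.of m⁻¹ * HNNExtension.t) := by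
        have h2 := HNNExtension.t_mul_of (φ := conjEquiv A m) ⟨a, ha⟩
        rw [conjEquiv_apply] at h2
        simp only [Commute, SemiconjBy]
        rw [mul_assoc, h2, ← mul_assoc, ← mul_assoc, ← map_mul, ← map_mul]
        congr 2
        group
      exact (h1.zpow_right _)
    have hmem : ω.out⁻¹ * (h⁻¹ * (h • ω).out) ∈ A := by
      have h1 : (QuotientGroup.mk (h⁻¹ * (h • ω).out) : M ⧸ A) = ω := by
        rw [← smul_eq_mul, ← MulAction.Quotient.smul_mk, QuotientGroup.out_eq', inv_smul_smul]
      exact QuotientGroup.eq.1 ((QuotientGroup.out_eq' ω).trans h1.symm)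
    obtain ⟨a, ha, hout⟩ : ∃ a ∈ A, (h • ω).out = h * ω.out * a :=
      ⟨_, hmem, by group⟩
    simp only [MonoidHom.comp_apply, MulEquiv.coe_toMonoidHom, MulAut.conj_apply, Twist.triv,
      MulAut.one_apply]
    rw [hout, map_mul, map_mul, mul_assoc (_ * _) (HNNExtension.of a), hcomm a ha]
    group)

theorem toFree_injective : Function.Injective (toFree A m) := by
  refine injective_of_comp_eq_id (toFree A m) (ofFree A m) ?_
  refine HNNExtension.hom_ext ?_ ?_
  · refine MonoidHom.ext fun x => ?_
    change ofFree A m (toFree A m (HNNExtension.of x)) = HNNExtension.of x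
    rw [toFree, HNNExtension.lift_of]
    exact Twist.lift_inr _ _ _ _ x
  · have h1 : ((QuotientGroup.mk 1 : M ⧸ A)).out ∈ A := by
      have h2 : (QuotientGroup.mk (QuotientGroup.mk 1 : M ⧸ A).out : M ⧸ A) = QuotientGroup.mk 1 :=
        QuotientGroup.out_eq' _
      have := QuotientGroup.eq.1 h2.symm
      simpa using this
    have h2 := HNNExtension.t_mul_of (φ := conjEquiv A m) ⟨_, h1⟩
    rw [conjEquiv_apply] at h2
    change ofFree A m (toFree A m HNNExtension.t) = HNNExtension.t
    have h3 : ofFree A m (inr m) = HNNExtension.of m := Twist.lift_inr _ _ _ _ m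
    have h4 : ofFree A m (st A) = HNNExtension.of (QuotientGroup.mk 1 : M ⧸ A).out *
        (HNNExtension.of m⁻¹ * HNNExtension.t) *
        (HNNExtension.of (QuotientGroup.mk 1 : M ⧸ A).out)⁻¹ := by
      refine (Twist.lift_gen _ _ _ _ _ _).trans ?_
      rw [MonoidHom.comp_apply, zpowersHom_apply, toAdd_ofAdd, zpow_one]
      rfl
    rw [toFree, HNNExtension.lift_t, map_mul, h3, h4]
    have h5 : (HNNExtension.of m : InnerHNN A m) *
        (HNNExtension.of (QuotientGroup.mk 1 : M ⧸ A).out *
        (HNNExtension.of m⁻¹ * HNNExtension.t) *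
        (HNNExtension.of (QuotientGroup.mk 1 : M ⧸ A).out)⁻¹) =
        HNNExtension.of (m * (QuotientGroup.mk 1 : M ⧸ A).out * m⁻¹) * HNNExtension.t *
        (HNNExtension.of (QuotientGroup.mk 1 : M ⧸ A).out)⁻¹ := by
      simp only [map_mul, mul_assoc]
    rw [h5]
    have h6 := congrArg (fun z => z * (HNNExtension.of (QuotientGroup.mk 1 : M ⧸ A).out)⁻¹) h2
    rw [← h6, mul_inv_cancel_right]

end Inner

/-- HNN extensions along isomorphisms that become inner in a group of the class. -/
theorem hnn_mem (hP : IsFJClass P) {K M : Type} [Group K] [Group M] (hM : P M)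
    {A B : Subgroup K} (φ : A ≃* B) (ρ : K →* M) (hρ : Function.Injective ρ) (m : M)
    (h : ∀ a : A, ρ (φ a) = m * ρ a * m⁻¹) : P (HNNExtension K A B φ) := by
  have h1 : P (InnerHNN (A.map ρ) m) :=
    hP.of_injective (toFree _ m) (toFree_injective _ m) (hP.free_perm hM hP.int)
  refine hP.of_injective (hnnMap (φ := φ) (φ' := conjEquiv (A.map ρ) m) ρ
    (fun a => ⟨a, a.2, rfl⟩) ?_) (hnnMap_injective ρ hρ _ _ ?_ ?_) h1
  · intro a
    rw [conjEquiv_apply, h a]
  · rintro k ⟨a, ha, hak⟩
    rw [← hρ hak]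
    exact ha
  · rintro k ⟨_, ⟨a, ha, rfl⟩, hak⟩
    have h2 : ρ (φ ⟨a, ha⟩) = ρ k := by
      rw [h ⟨a, ha⟩, ← hak]
      rfl
    rw [← hρ h2]
    exact (φ ⟨a, ha⟩).2

end Pool.Agent.FJ.H12
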