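import Pool.Agent.Lib.MP_98022b_h12.HNN

/-!
# `K ⋊ ℤ` as a directed colimit of HNN extensions
-/

set_option autoImplicit false

namespace Pool.Agent.FJ.H12

open Monoid SemidirectProduct Pool.Agent.FJ

variable {P : ∀ (G : Type) [Group G], Prop}

variable {K : Type} [Group K] (α : MulAut K)

/-- the domain of the restricted automorphism -/
def dom (S : Finset K) : Subgroup K := Subgroup.closure (S : Set K)

/-- the base group -/
def base (S : Finset K) : Subgroup K := dom S ⊔ (dom S).map α.toMonoidHom

theorem dom_mono {S T : Finset K} (h : S ≤ T) : dom S ≤ dom T :=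
  Subgroup.closure_mono (by exact_mod_cast h)

theorem dom_le_base (S : Finset K) : dom S ≤ base α S := le_sup_left

theorem map_le_base (S : Finset K) : (dom S).map α.toMonoidHom ≤ base α S := le_sup_right

theorem base_mono {S T : Finset K} (h : S ≤ T) : base α S ≤ base α T :=
  sup_le_sup (dom_mono h) (Subgroup.map_mono (dom_mono h))

/-- the restricted isomorphism -/
noncomputable def phi (S : Finset K) :
    ((dom S).subgroupOf (base α S)) ≃* (((dom S).map α.toMonoidHom).subgroupOf (base α S)) :=
  ((Subgroup.subgroupOfEquivOfLe (dom_le_base α S)).trans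
    ((dom S).equivMapOfInjective α.toMonoidHom α.injective)).trans
    (Subgroup.subgroupOfEquivOfLe (map_le_base α S)).symm

theorem phi_apply (S : Finset K) (a : (dom S).subgroupOf (base α S)) :
    ((phi α S a : base α S) : K) = α ((a : base α S) : K) := rfl

/-- A group with the universal property of the HNN extension of `base S` along the restriction of
`α` to `dom S`. -/
structure Data (S : Finset K) where
  /-- the group -/
  G : Type
  [grp : Group G]
  /-- the base group -/
  o : base α S →* G
  /-- the stable letter -/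
  t : G
  rel : ∀ k k' : base α S, (k : K) ∈ dom S → (k' : K) = α k → t * o k = o k' * t
  lift : ∀ {H : Type} [Group H] (f : base α S →* H) (x : H),
    (∀ k k' : base α S, (k : K) ∈ dom S → (k' : K) = α k → x * f k = f k' * x) →
    ∃ F : G →* H, (∀ k, F (o k) = f k) ∧ F t = x
  hom_ext : ∀ {H : Type} [Group H] (F F' : G →* H), (∀ k, F (o k) = F' (o k)) → F t = F' t →
    F = F'
  ind : ∀ (motive : G → Prop) (x : G), (∀ g, motive (o g)) → motive t →
    (∀ x y, motive x → motive y → motive (x * y)) → (∀ x, motive x → motive x⁻¹) → motive x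
  mem : ∀ (P : ∀ (G : Type) [Group G], Prop), IsFJClass P → ∀ (M : Type) [Group M], P M →
    ∀ (ρ : base α S →* M), Function.Injective ρ → ∀ m : M,
    (∀ k k' : base α S, (k : K) ∈ dom S → (k' : K) = α k → ρ k' = m * ρ k * m⁻¹) → P G

theorem nonempty_data (S : Finset K) : Nonempty (Data α S) := by
  refine ⟨{
    G := HNNExtension (base α S) _ _ (phi α S)
    o := HNNExtension.of
    t := HNNExtension.t
    rel := fun k k' hk hk' => ?_
    lift := fun f x h => ⟨HNNExtension.lift f x fun a => h _ _ a.2 (phi_apply α S a),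
      fun k => HNNExtension.lift_of _ _ _ _, HNNExtension.lift_t _ _ _⟩
    hom_ext := fun F F' h ht => HNNExtension.hom_ext (MonoidHom.ext h) ht
    ind := fun motive x of t mul inv =>
      HNNExtension.induction_on (motive := motive) x of t mul inv
    mem := fun P hP M _ hM ρ hρ m h => ?_ }⟩
  · have h := HNNExtension.t_mul_of (φ := phi α S) ⟨k, hk⟩
    have h2 : (phi α S ⟨k, hk⟩ : base α S) = k' := Subtype.ext (by rw [phi_apply, hk'])
    rw [h2] at h
    exact h
  · exact hnn_mem hP hM (phi α S) ρ hρ m fun a => h _ _ a.2 (phi_apply α S a)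

/-- the chosen HNN extension -/
noncomputable def dat (S : Finset K) : Data α S := Classical.choice (nonempty_data α S)

/-- the HNN extension of the base group -/
def GS (S : Finset K) : Type := (dat α S).G

noncomputable instance (S : Finset K) : Group (GS α S) := (dat α S).grp

/-- the inclusion of the base group -/
noncomputable def ofS (S : Finset K) : base α S →* GS α S := (dat α S).o

/-- the stable letter -/
noncomputable def tS (S : Finset K) : GS α S := (dat α S).t

theorem tS_mul (S : Finset K) (k k' : base α S) (hk : (k : K) ∈ dom S) (hk' : (k' : K) = α k) :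
    tS α S * ofS α S k = ofS α S k' * tS α S := (dat α S).rel k k' hk hk'

theorem tS_inv_mul (S : Finset K) (k k' : base α S) (hk : (k : K) ∈ dom S)
    (hk' : (k' : K) = α k) : (tS α S)⁻¹ * ofS α S k' = ofS α S k * (tS α S)⁻¹ := by
  have h := tS_mul α S k k' hk hk'
  rw [inv_mul_eq_iff_eq_mul, ← mul_assoc, h, mul_inv_cancel_right]

theorem exists_liftS (S : Finset K) {G : Type} [Group G] (f : base α S →* G) (x : G)
    (h : ∀ k k' : base α S, (k : K) ∈ dom S → (k' : K) = α k → x * f k = f k' * x) :
    ∃ F : GS α S →* G, (∀ k, F (ofS α S k) = f k) ∧ F (tS α S) = x :=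
  (dat α S).lift f x h

/-- homomorphisms out of `GS` -/
noncomputable def liftS (S : Finset K) {G : Type} [Group G] (f : base α S →* G) (x : G)
    (h : ∀ k k' : base α S, (k : K) ∈ dom S → (k' : K) = α k → x * f k = f k' * x) :
    GS α S →* G := (exists_liftS α S f x h).choose

theorem liftS_of (S : Finset K) {G : Type} [Group G] (f : base α S →* G) (x : G)
    (h : ∀ k k' : base α S, (k : K) ∈ dom S → (k' : K) = α k → x * f k = f k' * x)
    (k : base α S) : liftS α S f x h (ofS α S k) = f k :=
  (exists_liftS α S f x h).choose_spec.1 k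

theorem liftS_t (S : Finset K) {G : Type} [Group G] (f : base α S →* G) (x : G)
    (h : ∀ k k' : base α S, (k : K) ∈ dom S → (k' : K) = α k → x * f k = f k' * x) :
    liftS α S f x h (tS α S) = x :=
  (exists_liftS α S f x h).choose_spec.2

theorem hom_extS (S : Finset K) {G : Type} [Group G] {f g : GS α S →* G}
    (h : ∀ k, f (ofS α S k) = g (ofS α S k)) (ht : f (tS α S) = g (tS α S)) : f = g :=
  (dat α S).hom_ext f g h ht

theorem inductionS (S : Finset K) {motive : GS α S → Prop} (x : GS α S)
    (of : ∀ g, motive (ofS α S g)) (t : motive (tS α S))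
    (mul : ∀ x y, motive x → motive y → motive (x * y))
    (inv : ∀ x, motive x → motive x⁻¹) : motive x :=
  (dat α S).ind motive x of t mul inv

/-- the inclusion of base groups -/
def inc (S T : Finset K) (h : S ≤ T) : base α S →* base α T :=
  Subgroup.inclusion (base_mono α h)

theorem coe_inc (S T : Finset K) (h : S ≤ T) (k : base α S) :
    ((inc α S T h k : base α T) : K) = k := by
  rw [inc, Subgroup.coe_inclusion]



/-- the structure maps -/
noncomputable def str (S T : Finset K) (h : S ≤ T) : GS α S →* GS α T :=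
  liftS α S ((ofS α T).comp (inc α S T h)) (tS α T) (by
    intro k k' hk hk'
    rw [MonoidHom.comp_apply, MonoidHom.comp_apply]
    exact tS_mul α T _ _ (by rw [coe_inc]; exact dom_mono h hk) (by rw [coe_inc, coe_inc]; exact hk'))

theorem str_of (S T : Finset K) (h : S ≤ T) (x : base α S) :
    str α S T h (ofS α S x) = ofS α T (inc α S T h x) := by
  rw [str, liftS_of, MonoidHom.comp_apply]

theorem str_t (S T : Finset K) (h : S ≤ T) : str α S T h (tS α S) = tS α T :=
  liftS_t _ _ _ _ _

/-- the colimit group -/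
abbrev Tor : Type := K ⋊[zpowersHom (MulAut K) α] Multiplicative ℤ

/-- the canonical maps -/
noncomputable def can (S : Finset K) : GS α S →* Tor α :=
  liftS α S (inl.comp (base α S).subtype) (inr (Multiplicative.ofAdd (1 : ℤ))) (by
    intro k k' hk hk'
    have h := inl_aut (φ := zpowersHom (MulAut K) α) (Multiplicative.ofAdd (1 : ℤ)) (k : K)
    simp only [zpowersHom_apply, toAdd_ofAdd, zpow_one] at h
    simp only [MonoidHom.comp_apply, Subgroup.coe_subtype, hk']
    rw [h, map_inv, inv_mul_cancel_right])

theorem can_of (S : Finset K) (x : base α S) : can α S (ofS α S x) = inl (x : K) := by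
  rw [can, liftS_of, MonoidHom.comp_apply, Subgroup.coe_subtype]

theorem can_t (S : Finset K) : can α S (tS α S) = inr (Multiplicative.ofAdd (1 : ℤ)) :=
  liftS_t _ _ _ _ _

theorem str_self (S : Finset K) (x : GS α S) : str α S S le_rfl x = x := by
  have : str α S S le_rfl = MonoidHom.id _ := by
    refine hom_extS α S (fun k => ?_) ?_
    · rw [str_of, MonoidHom.id_apply]; exact congrArg _ (Subtype.ext (coe_inc α _ _ _ _))
    · rw [str_t, MonoidHom.id_apply]
  rw [this, MonoidHom.id_apply]

theorem str_str (S T U : Finset K) (h : S ≤ T) (h' : T ≤ U) (x : GS α S) :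
    str α T U h' (str α S T h x) = str α S U (h.trans h') x := by
  have : (str α T U h').comp (str α S T h) = str α S U (h.trans h') := by
    refine hom_extS α S (fun k => ?_) ?_
    · rw [MonoidHom.comp_apply, str_of, str_of, str_of]
      exact congrArg _ (Subtype.ext (by rw [coe_inc, coe_inc, coe_inc]))
    · rw [MonoidHom.comp_apply, str_t, str_t, str_t]
  exact DFunLike.congr_fun this x

theorem can_str (S T : Finset K) (h : S ≤ T) (x : GS α S) :
    can α T (str α S T h x) = can α S x := by
  have : (can α T).comp (str α S T h) = can α S := by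
    refine hom_extS α S (fun k => ?_) ?_
    · rw [MonoidHom.comp_apply, str_of, can_of, can_of, coe_inc]
    · rw [MonoidHom.comp_apply, str_t, can_t, can_t]
  exact DFunLike.congr_fun this x

theorem mem_dom {S : Finset K} {k : K} (h : k ∈ S) : k ∈ dom S := Subgroup.subset_closure h

/-- `base S` is contained in `dom T` for a larger `T`. -/
theorem exists_dom (S : Finset K) : ∃ T : Finset K, S ≤ T ∧ base α S ≤ dom T := by
  classical
  refine ⟨S ∪ S.image α, Finset.subset_union_left, sup_le (dom_mono Finset.subset_union_left) ?_⟩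
  rw [dom, MonoidHom.map_closure, Subgroup.closure_le]
  rintro _ ⟨s, hs, rfl⟩
  exact mem_dom (Finset.mem_union_right _ (Finset.mem_image_of_mem α hs))

theorem exists_map (S : Finset K) :
    ∃ T : Finset K, S ≤ T ∧ base α S ≤ (dom T).map α.toMonoidHom := by
  classical
  refine ⟨S ∪ S.image α.symm, Finset.subset_union_left, sup_le ?_
    (Subgroup.map_mono (dom_mono Finset.subset_union_left))⟩
  rw [dom, Subgroup.closure_le]
  intro s hs
  exact ⟨α.symm s, mem_dom (Finset.mem_union_right _ (Finset.mem_image_of_mem α.symm hs)),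
    α.apply_symm_apply s⟩

/-- moving the stable letter to the right -/
theorem t_mul (S : Finset K) (k : base α S) : ∃ (T : Finset K) (h : S ≤ T) (k' : base α T),
    tS α T * str α S T h (ofS α S k) = ofS α T k' * tS α T := by
  obtain ⟨T, h, hT⟩ := exists_dom α S
  refine ⟨T, h, ⟨α k, map_le_base α T ⟨k, hT k.2, rfl⟩⟩, ?_⟩
  rw [str_of]
  exact tS_mul α T _ _ (by rw [coe_inc]; exact hT k.2) (by rw [coe_inc])

theorem t_inv_mul (S : Finset K) (k : base α S) : ∃ (T : Finset K) (h : S ≤ T) (k' : base α T),
    (tS α T)⁻¹ * str α S T h (ofS α S k) = ofS α T k' * (tS α T)⁻¹ := by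
  obtain ⟨T, h, hT⟩ := exists_map α S
  obtain ⟨a, ha, hak⟩ := hT k.2
  refine ⟨T, h, ⟨a, dom_le_base α T ha⟩, ?_⟩
  rw [str_of]
  exact tS_inv_mul α T _ _ ha (by rw [coe_inc]; exact hak.symm)

theorem t_zpow_mul (n : ℤ) : ∀ (S : Finset K) (k : base α S),
    ∃ (T : Finset K) (h : S ≤ T) (k' : base α T),
    tS α T ^ n * str α S T h (ofS α S k) = ofS α T k' * tS α T ^ n := by
  induction n using Int.induction_on with
  | zero => exact fun S k => ⟨S, le_rfl, k, by rw [str_self, zpow_zero, one_mul, mul_one]⟩
  | succ n ih =>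
    intro S k
    obtain ⟨T, h, k', hk'⟩ := t_mul α S k
    obtain ⟨U, h', k'', hk''⟩ := ih T k'
    refine ⟨U, h.trans h', k'', ?_⟩
    have h1 := congrArg (str α T U h') hk'
    rw [map_mul, map_mul, str_str, str_t] at h1
    rw [zpow_add_one, mul_assoc, h1, ← mul_assoc, hk'', mul_assoc]
  | pred n ih =>
    intro S k
    obtain ⟨T, h, k', hk'⟩ := t_inv_mul α S k
    obtain ⟨U, h', k'', hk''⟩ := ih T k'
    refine ⟨U, h.trans h', k'', ?_⟩
    have h1 := congrArg (str α T U h') hk'
    rw [map_mul, map_mul, str_str, map_inv, str_t] at h1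
    rw [zpow_sub_one, mul_assoc, h1, ← mul_assoc, hk'', mul_assoc]

/-- Every element becomes of the form `k t^n` in a later group. -/
theorem normal_form (S : Finset K) (x : GS α S) : ∃ (T : Finset K) (h : S ≤ T) (k : base α T)
    (n : ℤ), str α S T h x = ofS α T k * tS α T ^ n := by
  induction x using inductionS with
  | of g => exact ⟨S, le_rfl, g, 0, by rw [str_self, zpow_zero, mul_one]⟩
  | t => exact ⟨S, le_rfl, 1, 1, by rw [str_self, zpow_one, map_one, one_mul]⟩
  | mul x y hx hy =>
    classical
    obtain ⟨T₁, h₁, k₁, n₁, e₁⟩ := hx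
    obtain ⟨T₂, h₂, k₂, n₂, e₂⟩ := hy
    obtain ⟨T₃, h₃, k₃, e₃⟩ := t_zpow_mul α n₁ T₂ k₂
    let U := T₁ ∪ T₃
    have hU1 : T₁ ≤ U := Finset.subset_union_left
    have hU3 : T₃ ≤ U := Finset.subset_union_right
    refine ⟨U, h₁.trans hU1, inc α T₁ U hU1 k₁ *
      inc α T₃ U hU3 k₃, n₁ + n₂, ?_⟩
    have e₁' := congrArg (str α T₁ U hU1) e₁
    rw [str_str, map_mul, str_of, map_zpow, str_t] at e₁'
    have e₂' := congrArg (str α T₂ U (h₃.trans hU3)) e₂
    rw [str_str, map_mul, map_zpow, str_t] at e₂'
    have e₃' := congrArg (str α T₃ U hU3) e₃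
    rw [map_mul, map_mul, map_zpow, str_t, str_str, str_of α T₃] at e₃'
    rw [map_mul, e₁', e₂', map_mul, zpow_add]
    calc _ = ofS α U (inc α T₁ U hU1 k₁) *
          (tS α U ^ n₁ * str α T₂ U (h₃.trans hU3) (ofS α T₂ k₂)) *
          tS α U ^ n₂ := by simp only [mul_assoc]
      _ = _ := by rw [e₃']; simp only [mul_assoc]
  | inv x hx =>
    obtain ⟨T₁, h₁, k₁, n₁, e₁⟩ := hx
    obtain ⟨T₃, h₃, k₃, e₃⟩ := t_zpow_mul α (-n₁) T₁ k₁⁻¹
    refine ⟨T₃, h₁.trans h₃, k₃, -n₁, ?_⟩
    have e₁' := congrArg (str α T₁ T₃ h₃) e₁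
    rw [str_str, map_mul, map_zpow, str_t] at e₁'
    rw [map_inv, e₁', mul_inv_rev, ← zpow_neg, ← map_inv, ← map_inv, e₃]

theorem tor_mem (hP : IsFJClass P) (h : ∀ S : Finset K, P (GS α S)) : P (Tor α) := by
  classical
  refine hP.colimit (ι := Finset K) (fun S => GS α S) (fun S T h => str α S T h)
    (fun S => can α S) (str_self α) (fun S T U h h' x => str_str α S T U h h' x)
    (fun S T h x => can_str α S T h x) ?_ ?_ h
  · rintro ⟨k, n⟩
    refine ⟨{k}, ofS α {k} ⟨k, dom_le_base α _ (mem_dom (by simp))⟩ *
      tS α {k} ^ (Multiplicative.toAdd n), ?_⟩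
    rw [map_mul, can_of, map_zpow, can_t, ← map_zpow]
    rw [SemidirectProduct.mk_eq_inl_mul_inr]
    congr 2
    rw [← ofAdd_zsmul]
    simp
  · intro S x hx
    obtain ⟨T, h, k, n, e⟩ := normal_form α S x
    refine ⟨T, h, ?_⟩
    have h1 : can α T (str α S T h x) = 1 := by rw [can_str, hx]
    rw [e, map_mul, can_of, map_zpow, can_t, ← map_zpow] at h1
    have h2 := congrArg SemidirectProduct.right h1
    have h3 := congrArg SemidirectProduct.left h1
    simp only [mul_right, right_inl, right_inr, one_mul, one_right] at h2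
    simp only [mul_left, left_inl, left_inr, map_one, mul_one, one_left] at h3
    have h4 : n = 0 := by
      rw [← ofAdd_zsmul] at h2
      have := congrArg Multiplicative.toAdd h2
      simpa using this
    have h5 : k = 1 := Subtype.ext h3
    rw [e, h4, h5, map_one, zpow_zero, mul_one]

end Pool.Agent.FJ.H12
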